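import Pool.Agent.Work.MP_a1f430_ti.Gen
import Pool.Agent.Work.MP_a1f430_wb.All4

/-!
# Weak Omega-self-dual curvatures in dimension six: constant forms

Let `U ⊆ ℝ^6` be open with a smooth Riemannian metric `h`, `Ω` a smooth two-form on `U`, `A` a
locally square integrable connection form (the structure group is a closed group of unitary
elements of a finite-dimensional real `C^*`-algebra, for example a closed subgroup of `U(N)`) whose
curvature `F` is locally square integrable and satisfies `Ω ∧ F = * F`.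

At every point there is a positively oriented orthonormal frame in which
`Ω = a e¹² + b e³⁴ + c e⁵⁶`.

1. The points where `|a|, |b|, |c| ≠ 1` are regular.
2. If `h` and `Ω` are constant (for example on a flat torus) then the singular set is empty or has
   positive two-dimensional Hausdorff measure, except for `Ω = - (e¹² + e³⁴ + e⁵⁶)`.

For the classes of the question the two-dimensional measure of the singular set is known to vanish,
so the singular set is empty in the second case.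
-/

namespace Pool.Agent.Results.MP_a1f430_gt.ConstantForms

open MeasureTheory Pool.TIA

section

variable {E : Type} [NormedAddCommGroup E] [NormedSpace ℝ E]

/-- `f` is a positively oriented `h`-orthonormal frame in which `Ω = a f⁰¹ + b f²³ + c f⁴⁵`. -/
structure NForm (s : Module.Basis (Fin (2 + 4)) ℝ E) (h : Bil E) (Ω : Frm 2 E) (f : Fin 6 → E)
    (a b c : ℝ) : Prop where
  fr : OFr s h (fun i => f (ix 2 i))
  o01 : Ω ![f 0, f 1] = a
  o23 : Ω ![f 2, f 3] = b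
  o45 : Ω ![f 4, f 5] = c
  off : ∀ i j : Fin 6, i.val / 2 ≠ j.val / 2 → Ω ![f i, f j] = 0

/-- `Ω` has a normal form. -/
def HasForm (s : Module.Basis (Fin (2 + 4)) ℝ E) (h : Bil E) (Ω : Frm 2 E) : Prop :=
  ∃ f a b c, NForm s h Ω f a b c

/-- `Ω = - (e⁰¹ + e²³ + e⁴⁵)` in a positively oriented orthonormal frame. -/
def MinusKahler (s : Module.Basis (Fin (2 + 4)) ℝ E) (h : Bil E) (Ω : Frm 2 E) : Prop :=
  ∃ f, NForm s h Ω f (-1) (-1) (-1)

/-- None of the coefficients of `Ω` in the frame has modulus one. -/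
def Generic (s : Module.Basis (Fin (2 + 4)) ℝ E) (h : Bil E) (Ω : Frm 2 E) : Prop :=
  ∃ f a b c, NForm s h Ω f a b c ∧ a ^ 2 ≠ 1 ∧ b ^ 2 ≠ 1 ∧ c ^ 2 ≠ 1

end

/-- **Regularity in dimension six**: generic points are regular, and for constant metrics and forms
the singular set is empty or has positive two-dimensional measure, unless `Ω` is minus a Kähler
form. -/
theorem result (𝔐 : Type) [NormedRing 𝔐] [NormedAlgebra ℝ 𝔐] [StarRing 𝔐] [CStarRing 𝔐]
    [StarModule ℝ 𝔐] [FiniteDimensional ℝ 𝔐] (𝒢 : LieG 𝔐) (U : Set (Eu (2 + 4)))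
    (h : Eu (2 + 4) → Bil (Eu (2 + 4))) (Ω : Eu (2 + 4) → Frm 2 (Eu (2 + 4)))
    (A : OneF (Eu (2 + 4)) 𝔐) (F : TwoF (Eu (2 + 4)) 𝔐)
    (hI : WInst (stb (2 + 4)) 𝒢 U h Ω A F) :
    (∀ x ∈ U, HasForm (stb (2 + 4)) (h x) (Ω x)) ∧
    (∀ x ∈ U, Generic (stb (2 + 4)) (h x) (Ω x) → x ∉ Sing 𝒢 U A) ∧
    ∀ h₀ Ω₀, (∀ x ∈ U, h x = h₀) → (∀ x ∈ U, Ω x = Ω₀) → ¬ MinusKahler (stb (2 + 4)) h₀ Ω₀ →
      Sing 𝒢 U A = ∅ ∨ 0 < Measure.hausdorffMeasure (2 : ℝ) (Sing 𝒢 U A) := by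
  have hD := Pool.TIW.a_D6F 𝔐 𝒢 U h Ω A F hI
  refine ⟨fun x hx => ?_, ?_, ?_⟩
  · obtain ⟨f, a, b, c, hN⟩ := Pool.TIW.a_NFE (h x) (Ω x) (hI.metric.symm x hx)
      (hI.metric.pos x hx)
    exact ⟨f, a, b, c, hN.fr, hN.o01, hN.o23, hN.o45, hN.off⟩
  · rintro x hx ⟨f, a, b, c, hN, ha, hb, hc⟩
    exact hD.1 x hx f a b c ⟨hN.fr, hN.o01, hN.o23, hN.o45, hN.off⟩ ha hb hc
  · intro h₀ Ω₀ hh hΩ hK
    rcases hD.2 h₀ Ω₀ hh hΩ with ⟨f, hf⟩ | hS
    · exact absurd ⟨f, ⟨hf.fr, hf.o01, hf.o23, hf.o45, hf.off⟩⟩ hK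
    · exact hS

end Pool.Agent.Results.MP_a1f430_gt.ConstantForms
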