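import Pool.Agent.Work.MP_a1f430_ti.Final

/-!
# Weak Omega-self-dual curvatures: dimension five, decomposable forms, annihilated directions

Let `n = k + 5`, `U ⊆ ℝ^n` open with a smooth Riemannian metric `h`, `Ω` a smooth `(n - 4)`-form on
`U` (closed or not), `A` a locally square integrable connection form (the structure group is a
closed group of unitary elements of a finite-dimensional real `C^*`-algebra, for example a closed
subgroup of `U(N)`) whose curvature `F` is locally square integrable and satisfies `Ω ∧ F = * F`.

1. If near a singular point there are `n - 5` independent smooth fields which annihilate all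
   two-forms `w` with `Ω ∧ w = * w` then this point is the centre of an embedded
   `(n - 4)`-dimensional disk in the singular set.
2. If there are such fields near every point of `U` then the singular set is empty or has positive
   `(n - 4)`-dimensional Hausdorff measure.
3. There are such fields near every point if `n = 5` (no field is needed) or if `Ω` is decomposable
   at every point.

For the classes of the question the `(n - 4)`-dimensional measure of the singular set is known to
vanish, so the singular set is empty in the cases 2, 3.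
-/

namespace Pool.Agent.Results.MP_a1f430_gt.DimensionFive

open MeasureTheory Pool.TIA

/-- **The singular set is empty or has positive `(n - 4)`-dimensional measure** if `n - 5` directions
are annihilated, in particular for `n = 5` and every `Ω`, and for decomposable forms. -/
theorem result (𝔐 : Type) [NormedRing 𝔐] [NormedAlgebra ℝ 𝔐] [StarRing 𝔐] [CStarRing 𝔐]
    [StarModule ℝ 𝔐] [FiniteDimensional ℝ 𝔐] (𝒢 : LieG 𝔐) (k : ℕ) (U : Set (Eu (k + 1 + 4)))
    (h : Eu (k + 1 + 4) → Bil (Eu (k + 1 + 4)))
    (Ω : Eu (k + 1 + 4) → Frm (k + 1) (Eu (k + 1 + 4))) (A : OneF (Eu (k + 1 + 4)) 𝔐)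
    (F : TwoF (Eu (k + 1 + 4)) 𝔐) (hI : WInst (stb (k + 1 + 4)) 𝒢 U h Ω A F) :
    (∀ x ∈ Sing 𝒢 U A, AFl (stb (k + 1 + 4)) k h Ω x → Dsk (k + 1) (Sing 𝒢 U A) x) ∧
    ((∀ x ∈ U, AFl (stb (k + 1 + 4)) k h Ω x) → Sing 𝒢 U A = ∅ ∨
      0 < Measure.hausdorffMeasure ((k + 1 : ℕ) : ℝ) (Sing 𝒢 U A)) ∧
    (k = 0 ∨ (∀ x ∈ U, Dcp (Ω x)) → ∀ x ∈ U, AFl (stb (k + 1 + 4)) k h Ω x) :=
  ⟨(Fin_up hI).1, (Fin_up hI).2, fun hc => Fin_cond hI.op hI.metric hI.smooth hc⟩

end Pool.Agent.Results.MP_a1f430_gt.DimensionFive
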