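import Pool.Agent.Work.MP_a1f430_ti.Gen
import Pool.Agent.Work.MP_a1f430_wb.All3

/-!
# Weak Omega-self-dual curvatures: two pointwise types of regular points

Let `n = m + 4 ≥ 4`, `U ⊆ ℝ^n` open with a smooth Riemannian metric `h`, `Ω` a smooth
`(n - 4)`-form on `U` (closed or not), `A` a locally square integrable connection form (the
structure group is a closed group of unitary elements of a finite-dimensional real `C^*`-algebra,
for example a closed subgroup of `U(N)`) whose curvature `F` is locally square integrable and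
satisfies `Ω ∧ F = * F`.  Let `E_x` be the space of the real two-forms `w` at `x` with
`Ω(x) ∧ w = * w`.

1. If `E_x` is of finite type of order one, i.e. a linear map `T : ℝ^n → E_x` with vanishing cyclic
   sum is zero, then `A` is gauge equivalent to a smooth connection form near `x`.
2. This is so if `dim E_x ≤ 1`.
3. If `J` is a complex structure and `w(Ju, Jv) = - w(u, v)` for all `w ∈ E_y` and all `y` near `x`
   then `A` is gauge equivalent to a smooth connection form near `x`.
-/

namespace Pool.Agent.Results.MP_a1f430_gt.RegularTypes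

open MeasureTheory Pool.TIA

section

variable {E : Type} [NormedAddCommGroup E] [NormedSpace ℝ E] {m : ℕ}

/-- The equation `Ω ∧ w = * w` is of finite type (of order one) at a point: a linear map `T` from
vectors to real solutions `w` with vanishing cyclic sum is zero. -/
def FinTy (b : Module.Basis (Fin (m + 4)) ℝ E) (h : Bil E) (Ω : Frm m E) : Prop :=
  ∀ T : E →L[ℝ] Frm 2 E, (∀ v, StEq b h Ω (T v)) →
    (∀ u v w, T u ![v, w] + T v ![w, u] + T w ![u, v] = 0) → T = 0

/-- All real solutions `w` of `Ω ∧ w = * w` at a point are multiples of one form. -/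
def RankOne (b : Module.Basis (Fin (m + 4)) ℝ E) (h : Bil E) (Ω : Frm m E) : Prop :=
  ∃ w₀ : Frm 2 E, ∀ w : Frm 2 E, StEq b h Ω w → ∃ c : ℝ, w = c • w₀

/-- All real solutions `w` of `Ω ∧ w = * w` at a point are of type (2,0)+(0,2) for `J`. -/
def Type20 (b : Module.Basis (Fin (m + 4)) ℝ E) (J : E →L[ℝ] E) (h : Bil E) (Ω : Frm m E) :
    Prop :=
  ∀ w : Frm 2 E, StEq b h Ω w → ∀ u v, w ![J u, J v] = -w ![u, v]

end

/-- **The points where the equation is of finite type (in particular of rank at most one), and the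
points near which all solutions are of type (2,0)+(0,2) for a complex structure, are regular.** -/
theorem result (𝔐 : Type) [NormedRing 𝔐] [NormedAlgebra ℝ 𝔐] [StarRing 𝔐] [CStarRing 𝔐]
    [StarModule ℝ 𝔐] [FiniteDimensional ℝ 𝔐] (𝒢 : LieG 𝔐) (m : ℕ) (U : Set (Eu (m + 4)))
    (h : Eu (m + 4) → Bil (Eu (m + 4))) (Ω : Eu (m + 4) → Frm m (Eu (m + 4)))
    (A : OneF (Eu (m + 4)) 𝔐) (F : TwoF (Eu (m + 4)) 𝔐)
    (hI : WInst (stb (m + 4)) 𝒢 U h Ω A F) :
    (∀ x ∈ U, FinTy (stb (m + 4)) (h x) (Ω x) → x ∉ Sing 𝒢 U A) ∧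
    (∀ x ∈ U, RankOne (stb (m + 4)) (h x) (Ω x) → FinTy (stb (m + 4)) (h x) (Ω x)) ∧
    ∀ (N : Set (Eu (m + 4))) (J : Eu (m + 4) →L[ℝ] Eu (m + 4)), IsOpen N → N ⊆ U →
      (∀ v, J (J v) = -v) → (∀ x ∈ N, Type20 (stb (m + 4)) J (h x) (Ω x)) →
      ∀ x ∈ N, x ∉ Sing 𝒢 U A := by
  refine ⟨fun x hx hF hS => hS.2 (Pool.TIW.a_FTR 𝔐 𝒢 m U h Ω A F hI x hx hF), ?_, ?_⟩
  · rintro x hx ⟨w₀, hw⟩
    exact Pool.TIW.a_DM1 m (h x) (Ω x) w₀ (hI.metric.symm x hx) (hI.metric.pos x hx) hw
  · intro N J hN hNU hJ hT x hx hS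
    have hle : (volume : Measure (Eu (m + 4))).restrict N ≤ volume.restrict U :=
      Measure.restrict_mono hNU le_rfl
    have hI' : WInst (stb (m + 4)) 𝒢 N h Ω A F :=
      { op := hN
        metric := ⟨hI.metric.smooth.mono hNU, fun y hy => hI.metric.symm y (hNU hy),
          fun y hy => hI.metric.pos y (hNU hy)⟩
        smooth := hI.smooth.mono hNU
        conn :=
          { A2 := fun K hK hKN => hI.conn.A2 K hK (hKN.trans hNU)
            F2 := fun K hK hKN => hI.conn.F2 K hK (hKN.trans hNU)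
            lie := ae_mono hle hI.conn.lie
            curv := fun φ hφ => hI.conn.curv φ ⟨hφ.smooth, hφ.cpt, hφ.sub.trans hNU⟩ }
        star := ae_mono hle hI.star }
    exact hS.2 (Pool.TIW.a_FJR 𝔐 𝒢 m N h Ω A F J hI' hJ (fun y hy w hw => hT y hy w hw) x hx)

end Pool.Agent.Results.MP_a1f430_gt.RegularTypes
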