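import Pool.Agent.Work.MP_a1f430_ti.Gen
import Pool.Agent.Work.MP_a1f430_wb.All

/-!
# The Bianchi identity for all weak connections

Let `U ⊆ ℝ^n` be open, `A` a locally square integrable connection form on `U` (the structure group
is a closed group of unitary elements of a finite-dimensional real `C^*`-algebra, for example a
closed subgroup of `U(N)`) whose curvature `F = dA + A ∧ A` in the sense of distributions is locally
square integrable.  Then the Bianchi identity `dF + [A, F] = 0` holds in the sense of distributions.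

There is no condition on the slices of `A` and no restriction on the dimension.  The proof: for
every direction `e` there is, locally, a gauge in `W^{1,2}` in which `A(e) = 0`; in this gauge the
components of the identity which contain `e` are a product rule in one variable; the identity is
covariant under gauge changes in `W^{1,2}`.
-/

namespace Pool.Agent.Results.MP_a1f430_gt.WeakBianchi

open MeasureTheory Pool.TIA

section

variable {E 𝔐 : Type} [NormedAddCommGroup E] [NormedSpace ℝ E] [NormedRing 𝔐]
  [NormedAlgebra ℝ 𝔐]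

/-- The commutator. -/
def brk {𝔐 : Type} [NormedRing 𝔐] (X Y : 𝔐) : 𝔐 := X * Y - Y * X

/-- The value `F(u, v)`. -/
noncomputable def val (F : E [⋀^Fin 2]→L[ℝ] 𝔐) (u v : E) : 𝔐 := F ![u, v]

/-- The cyclic sum of `∂_u φ F(v, w)`. -/
noncomputable def dF (φ : E → ℝ) (F : TwoF E 𝔐) (u v w x : E) : 𝔐 :=
  fderiv ℝ φ x u • val (F x) v w + fderiv ℝ φ x v • val (F x) w u + fderiv ℝ φ x w • val (F x) u v

/-- The cyclic sum of `[A(u), F(v, w)]`. -/
noncomputable def AF (A : OneF E 𝔐) (F : TwoF E 𝔐) (u v w x : E) : 𝔐 :=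
  brk (A x u) (val (F x) v w) + brk (A x v) (val (F x) w u) + brk (A x w) (val (F x) u v)

/-- **The Bianchi identity** `dF + [A, F] = 0` on `U` in the sense of distributions. -/
def Bianchi [MeasureSpace E] (U : Set E) (A : OneF E 𝔐) (F : TwoF E 𝔐) : Prop :=
  ∀ φ : E → ℝ, Test U φ → ∀ u v w : E, ∫ x, dF φ F u v w x = ∫ x, φ x • AF A F u v w x

end

/-- **The Bianchi identity holds for every `A ∈ L²_loc` with curvature in `L²_loc`.** -/
theorem result (𝔐 : Type) [NormedRing 𝔐] [NormedAlgebra ℝ 𝔐] [StarRing 𝔐] [CStarRing 𝔐]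
    [StarModule ℝ 𝔐] [FiniteDimensional ℝ 𝔐] (𝒢 : LieG 𝔐) (n : ℕ) (U : Set (Eu n))
    (A : OneF (Eu n) 𝔐) (F : TwoF (Eu n) 𝔐) (hU : IsOpen U) (hA : Conn 𝒢 U A F) :
    Bianchi U A F := by
  intro φ hφ u v w
  have h := Pool.TIW.a_BIA 𝔐 𝒢 n U A F hU hA u v w φ hφ
  rw [show dF φ F u v w = fun x => ∑ k, fderiv ℝ φ x (![u, v, w] k) •
        Pool.TIW.cyc F u v w k x by
    funext x; rw [Fin.sum_univ_three]; rfl, h]
  refine integral_congr_ae (Filter.Eventually.of_forall fun x => ?_)
  simp only [Fin.sum_univ_three, sub_zero]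
  rfl

end Pool.Agent.Results.MP_a1f430_gt.WeakBianchi
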